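import Pool.Agent.N325.FC.Final

/-!
# Polarization constants of compact sets of positive measure on the line

Upper bound: `F t = λ(K ∩ (-∞, t])` is 1-Lipschitz and maps `K` onto `[0, λ(K)]`, so the constants of
`K` are at most those of an interval of length `λ(K)`. For `N` points `x_1 ≤ ... ≤ x_N` on the line,
`h = λ(K)/N` and `k` minimising `x_1 + ... + x_k - h k^2/2`, the sorted distances from `z = h k` to
the points on either side have partial sums `≥ h j^2 / 2`, so by the Tomic-Weyl inequality the
potential at `z` is at most `2 Σ ((j+1/2) h)^(-s)`. Lower bound: points of `K` in every `m`-th cell of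
a grid, and in all cells of the grid meeting `K` near a cell missing `K`; the number of the latter is
small because `λ` of the neighbourhoods of `K` tends to `λ(K)`.
-/

set_option autoImplicit false
open Filter Topology MeasureTheory
open scoped ENNReal

namespace Pool.Agent.Results.MP_efb919_an.ZetaLimit

/-- For every compact `K ⊂ ℝ` of positive Lebesgue measure and every `s > 1`, the `N`-th Riesz
`s`-polarization constant of `K` divided by `N^s` is at most `2 (2^s - 1) ζ(s) λ(K)^(-s)` for every
`N ≥ 1`, and converges to this number. -/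
theorem result : ∀ K : Set ℝ, IsCompact K → 0 < volume K → ∀ s : ℝ, 1 < s →
    (∀ N : ℕ, 1 ≤ N →
      (⨆ (x : Fin N → ℝ) (_ : ∀ i, x i ∈ K),
        ⨅ y ∈ K, ∑ j, (ENNReal.ofReal |y - x j|) ^ (-s)) / ((N : ℝ≥0∞) ^ s) ≤
      ENNReal.ofReal (2 * (2 ^ s - 1) * (riemannZeta (s : ℂ)).re * (volume K).toReal ^ (-s))) ∧
    Tendsto
      (fun N : ℕ =>
        (⨆ (x : Fin N → ℝ) (_ : ∀ i, x i ∈ K),
          ⨅ y ∈ K, ∑ j, (ENNReal.ofReal |y - x j|) ^ (-s)) / ((N : ℝ≥0∞) ^ s))
      atTop
      (𝓝 (ENNReal.ofReal
        (2 * (2 ^ s - 1) * (riemannZeta (s : ℂ)).re * (volume K).toReal ^ (-s)))) :=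
  Pool.Agent.N325.FC.final

end Pool.Agent.Results.MP_efb919_an.ZetaLimit
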